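import Pool.Agent.V8H96.LT.Core
import Pool.Agent.N496.LT.Stm2

/-!
# Midpoints of subdivided edges do not contribute
-/

set_option autoImplicit false

noncomputable section

namespace Pool.Agent.V8H96.LT

open Module Pool.Agent.W907.SG Pool.Agent.N496.LT

section fset

variable {V F Y : Type} [Fintype V] [LinearOrder V] [Field F] [Fintype Y] {G : SimpleGraph V}
  {E : Finset (W G)}

omit [Fintype V] [LinearOrder V] [Fintype Y] in
theorem pull_inv (P : FSet G E Y) (v : V) (m : Y → F) : pull F P.a v (pull F P.a v m) = m := by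
  funext x
  rw [pull_apply, pull_apply, P.inv]

omit [Fintype V] [LinearOrder V] [Fintype Y] in
theorem pull_comm (P : FSet G E Y) (u v : V) (h : G.Adj u v) (m : Y → F) :
    pull F P.a u (pull F P.a v m) = pull F P.a v (pull F P.a u m) := by
  funext x
  rw [pull_apply, pull_apply, pull_apply, pull_apply, P.comm u v h]

/-- the Betti numbers of the full subcomplex on a suspension are small -/
theorem link_bound (P : FSet G E Y) (L : ℕ) (s t : V) (hst : s ≠ t) (hnadj : ¬ G.Adj s t)
    (hE : ∀ k, 1 ≤ k → k < L → ((cox G).simple t * (cox G).simple s) ^ k ∈ E)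
    (A : Set V) (hs : s ∈ A) (ht : t ∈ A) (hA : ∀ u ∈ A, u ≠ s → u ≠ t → G.Adj u s ∧ G.Adj u t)
    (h2 : (2 : F) ≠ 0) (i : ℕ) :
    beta G (pull F P.a) A ∅ i * L ≤ 2 ^ (Fintype.card V + 1) * Fintype.card Y := by
  classical
  have h3 := Pool.Agent.W907.SG.tr A V F (Y → F) G (G.induce A) (pull F P.a) (fun u => (u : V))
    (Subtype.strictMono_coe _) (fun u u' => Iff.rfl) i
  rw [Subtype.range_coe] at h3
  rw [h3]
  have h4 := susp_bound (G.induce A) (fun u : A => pull F P.a (u : V)) ⟨s, hs⟩ ⟨t, ht⟩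
    (fun h => hst (congrArg Subtype.val h)) (fun h => hnadj h)
    (fun u hu hu' => hA u u.2 (fun h => hu (Subtype.ext h)) (fun h => hu' (Subtype.ext h))) h2
    (fun v m => pull_inv P v m) (fun u v h m => pull_comm P u v h m) i
  obtain ⟨K, hK⟩ : ∃ K, K = LinearMap.ker ((LinearMap.id : (Y → F) →ₗ[F] (Y → F)) -
    pull F P.a t ∘ₗ pull F P.a s) := ⟨_, rfl⟩
  have h5 : finrank F K * L ≤ Fintype.card Y := by
    let π : Equiv.Perm Y := ⟨fun x => P.a s (P.a t x), fun x => P.a t (P.a s x),
      fun x => by show P.a t (P.a s (P.a s (P.a t x))) = x; rw [P.inv, P.inv],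
      fun x => by show P.a s (P.a t (P.a t (P.a s x))) = x; rw [P.inv, P.inv]⟩
    have hπ1 : ∀ x, π x = P.ev x ((cox G).simple t * (cox G).simple s) := by
      intro x
      rw [P.ev_mul, P.ev_simple, P.ev_simple]
      rfl
    have hπ : ∀ (k : ℕ) x, (π ^ k) x = P.ev x (((cox G).simple t * (cox G).simple s) ^ k) := by
      intro k
      induction k with
      | zero => intro x; rw [pow_zero, pow_zero, P.ev_one, Equiv.Perm.one_apply]
      | succ k ih => intro x; rw [pow_succ', Equiv.Perm.mul_apply, ih, hπ1, ← P.ev_mul, pow_succ]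
    refine inv_bound π L (fun k hk hkL y => ?_) K (fun f hf y => ?_)
    · rw [hπ]
      exact P.free _ (hE k hk hkL) y
    · rw [hK, LinearMap.mem_ker, LinearMap.sub_apply, LinearMap.id_apply, LinearMap.comp_apply,
        sub_eq_zero] at hf
      exact (congrFun hf y).symm
  have h6 : beta (G.induce A) (fun u : A => pull F P.a (u : V)) Set.univ ∅ i ≤
      2 * (2 ^ Fintype.card A * finrank F K) := by
    rw [hK]
    exact h4
  have h7 : 2 ^ Fintype.card A ≤ 2 ^ Fintype.card V :=
    Nat.pow_le_pow_right (by norm_num) (Fintype.card_subtype_le _)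
  calc beta (G.induce A) (fun u : A => pull F P.a (u : V)) Set.univ ∅ i * L
      ≤ 2 * (2 ^ Fintype.card A * finrank F K) * L := Nat.mul_le_mul_right _ h6
    _ = 2 * (2 ^ Fintype.card A * (finrank F K * L)) := by ring
    _ ≤ 2 * (2 ^ Fintype.card V * Fintype.card Y) :=
        Nat.mul_le_mul_left _ (Nat.mul_le_mul h7 h5)
    _ = _ := by ring

/-- removing one midpoint -/
theorem step_bound (P : FSet G E Y) (L : ℕ) (hL : 0 < L) (m s t : V) (hst : s ≠ t)
    (hnadj : ¬ G.Adj s t)
    (hE : ∀ k, 1 ≤ k → k < L → ((cox G).simple t * (cox G).simple s) ^ k ∈ E)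
    (B : Set V) (hm : m ∉ B) (hs : s ∈ B) (ht : t ∈ B) (hms : G.Adj m s) (hmt : G.Adj m t)
    (hA : ∀ u, G.Adj m u → u ≠ s → u ≠ t → G.Adj u s ∧ G.Adj u t)
    (h2 : (2 : F) ≠ 0) (i : ℕ) :
    |(beta G (pull F P.a) (insert m B) ∅ i : ℝ) - beta G (pull F P.a) B ∅ i| ≤
      2 ^ (Fintype.card V + 1) * Fintype.card Y / L := by
  classical
  have hL0 : (0 : ℝ) < L := by exact_mod_cast hL
  have hlink : ∀ j, (beta G (pull F P.a) (B ∩ G.neighborSet m) (insert m ∅) j : ℝ) ≤
      2 ^ (Fintype.card V + 1) * Fintype.card Y / L := by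
    intro j
    have h3 := Pool.Agent.W907.SG.eig V F (Y → F) G (pull F P.a) (B ∩ G.neighborSet m) ∅ m h2
      (fun f => pull_inv P m f) (fun u hu f => by
        have hu' : G.Adj u m := by
          rcases hu with hu | hu
          · exact ((G.mem_neighborSet m u).1 hu.2).symm
          · exact absurd hu (Set.notMem_empty u)
        exact pull_comm P u m hu' f) j
    have h4 := link_bound P L s t hst hnadj hE (B ∩ G.neighborSet m) ⟨hs, hms⟩ ⟨ht, hmt⟩
      (fun u hu h5 h6 => hA u hu.2 h5 h6) h2 j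
    have h5 := (Nat.mul_le_mul_right L h3).trans h4
    rw [le_div_iff₀ hL0]
    exact_mod_cast h5
  have hdel := Pool.Agent.R781.VS.vdel G (pull F P.a) B ∅ m hm i
  have hdel' : (beta G (pull F P.a) B ∅ i : ℝ) ≤ beta G (pull F P.a) (insert m B) ∅ i +
      beta G (pull F P.a) (B ∩ G.neighborSet m) (insert m ∅) i := by exact_mod_cast hdel
  have hv := Pool.Agent.W907.SG.vert V F (Y → F) G (pull F P.a) B ∅ m hm (Set.notMem_empty m)
  rw [abs_le]
  constructor
  · linarith [hlink i]
  · cases i with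
    | zero =>
      have h3 : (beta G (pull F P.a) (insert m B) ∅ 0 : ℝ) ≤ beta G (pull F P.a) B ∅ 0 := by
        exact_mod_cast hv.1
      have h4 : (0 : ℝ) ≤ 2 ^ (Fintype.card V + 1) * Fintype.card Y / L := by positivity
      linarith
    | succ i =>
      have h3 : (beta G (pull F P.a) (insert m B) ∅ (i + 1) : ℝ) ≤
          beta G (pull F P.a) B ∅ (i + 1) +
          beta G (pull F P.a) (B ∩ G.neighborSet m) (insert m ∅) i := by exact_mod_cast hv.2 i
      linarith [hlink i]

/-- removing all the midpoints -/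
theorem all_bound (P : FSet G E Y) (L : ℕ) (hL : 0 < L)
    (hE : ∀ s t, s ≠ t → ¬ G.Adj s t → ∀ k, 1 ≤ k → k < L →
      ((cox G).simple t * (cox G).simple s) ^ k ∈ E)
    (A : Set V) (hM : MidP G A) (h2 : (2 : F) ≠ 0) (i : ℕ) (T : Finset V)
    (hT : ∀ m ∈ T, m ∉ A) :
    |(beta G (pull F P.a) (A ∪ T) ∅ i : ℝ) - beta G (pull F P.a) A ∅ i| ≤
      T.card * (2 ^ (Fintype.card V + 1) * Fintype.card Y / L) := by
  classical
  induction T using Finset.induction_on with
  | empty => simp
  | insert m T hmT ih =>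
    have ih' := ih fun x hx => hT x (Finset.mem_insert_of_mem hx)
    have hmA : m ∉ A := hT m (Finset.mem_insert_self _ _)
    obtain ⟨s, hs, t, ht, hst, hnadj, hms, hmt, hu⟩ := hM m hmA
    have h3 := step_bound P L hL m s t hst hnadj (hE s t hst hnadj) (A ∪ T)
      (by rintro (h | h); exacts [hmA h, hmT h]) (Or.inl hs) (Or.inl ht) hms hmt hu h2 i
    have h4 : A ∪ ((insert m T : Finset V) : Set V) = insert m (A ∪ (T : Set V)) := by
      rw [Finset.coe_insert, Set.union_insert]
    rw [h4, Finset.card_insert_of_notMem hmT]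
    push_cast
    have h5 := abs_le.1 h3
    have h6 := abs_le.1 ih'
    rw [abs_le]
    constructor
    · linarith [h5.1, h6.1]
    · linarith [h5.2, h6.2]

end fset

open Classical in
/-- the set of the powers of the products of two generators which do not commute -/
def powE {V : Type} [Fintype V] (G : SimpleGraph V) (L : ℕ) : Finset (W G) :=
  (((Finset.univ : Finset (V × V)).filter fun p => p.1 ≠ p.2 ∧ ¬ G.Adj p.1 p.2) ×ˢ
    Finset.Ico 1 L).image fun q => ((cox G).simple q.1.2 * (cox G).simple q.1.1) ^ q.2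

theorem one_notMem_powE {V : Type} [Fintype V] (G : SimpleGraph V) (L : ℕ) :
    (1 : W G) ∉ powE G L := by
  classical
  intro h
  obtain ⟨q, hq, hq'⟩ := Finset.mem_image.1 h
  rw [Finset.mem_product, Finset.mem_filter, Finset.mem_Ico] at hq
  exact st_pow_ne G q.1.1 q.1.2 hq.1.2.1 hq.1.2.2 q.2 hq.2.1 hq'

theorem mem_powE {V : Type} [Fintype V] (G : SimpleGraph V) (L : ℕ) (s t : V) (hst : s ≠ t)
    (hnadj : ¬ G.Adj s t) (k : ℕ) (hk : 1 ≤ k) (hkL : k < L) :
    ((cox G).simple t * (cox G).simple s) ^ k ∈ powE G L := by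
  classical
  refine Finset.mem_image.2 ⟨((s, t), k), ?_, rfl⟩
  rw [Finset.mem_product, Finset.mem_filter, Finset.mem_Ico]
  exact ⟨⟨Finset.mem_univ _, hst, hnadj⟩, hk, hkL⟩

/-- The midpoints of the subdivided edges do not contribute. -/
theorem p2g : Pool.Agent.N496.LT.P2G := by
  classical
  intro V F _ _ _ G A hM ε h2 hε
  obtain ⟨L, hL⟩ := exists_nat_gt ((Fintype.card V : ℝ) * 2 ^ (Fintype.card V + 1) / ε)
  have hL0 : (0 : ℝ) < L := lt_of_le_of_lt (by positivity) hL
  refine ⟨powE G L, one_notMem_powE G L, fun Y _ P i => ?_⟩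
  have h3 := all_bound P L (by exact_mod_cast hL0) (mem_powE G L) A hM h2 i
    (Finset.univ.filter fun m => m ∉ A) (by simp)
  have h4 : A ∪ ((Finset.univ.filter fun m => m ∉ A : Finset V) : Set V) = Set.univ := by
    ext x
    simp [em]
  rw [h4] at h3
  refine h3.trans ?_
  have h5 : (((Finset.univ.filter fun m => m ∉ A : Finset V).card : ℕ) : ℝ) ≤ Fintype.card V := by
    exact_mod_cast Finset.card_le_univ _
  have h6 : (Fintype.card V : ℝ) * (2 ^ (Fintype.card V + 1) * Fintype.card Y / L) =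
      (Fintype.card V : ℝ) * 2 ^ (Fintype.card V + 1) / L * Fintype.card Y := by ring
  have h7 : (Fintype.card V : ℝ) * 2 ^ (Fintype.card V + 1) / L ≤ ε := by
    rw [div_lt_iff₀ hε] at hL
    rw [div_le_iff₀ hL0]
    linarith
  calc (((Finset.univ.filter fun m => m ∉ A : Finset V).card : ℕ) : ℝ) *
        (2 ^ (Fintype.card V + 1) * Fintype.card Y / L)
      ≤ (Fintype.card V : ℝ) * (2 ^ (Fintype.card V + 1) * Fintype.card Y / L) :=
        mul_le_mul_of_nonneg_right h5 (by positivity)
    _ = (Fintype.card V : ℝ) * 2 ^ (Fintype.card V + 1) / L * Fintype.card Y := h6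
    _ ≤ ε * Fintype.card Y := mul_le_mul_of_nonneg_right h7 (by positivity)

end Pool.Agent.V8H96.LT
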