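import Pool.Agent.N496.LT.E1

/-!
# The inverse of an edge subdivision preserves homology spheres

If the edge subdivision of a flag complex is a (flag, real) homology sphere, then so is the complex itself.
-/

set_option autoImplicit false

noncomputable section

namespace Pool.Agent.V8H96.LT.C1

open Module Pool.Agent.W907.SG Pool.Agent.N496.LT Pool.Agent.N496.LT.E1P
open Pool.Agent.W907.SM (lk)
open Pool.Agent.TH652.Above (HSph)

section cases

variable {n k : ℕ} {G : SimpleGraph (Fin n)} {s t : Fin n}

variable {S : Finset (Fin (n + 1))} (hst : G.Adj s t)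
  (hS : (sd G s t).IsClique (S : Set (Fin (n + 1))))

include hst hS in
/-- a clique containing the midpoint and one end of the edge -/
theorem caseA1 (hz : Fin.last n ∈ S) (hs : s ∈ pre S) (i : ℕ) :
    bb (sd G s t) (lk (sd G s t) S) i = bb G (lk G (insert t (pre S))) i := by
  classical
  have hc := pre_clique hS
  have hnb := not_both hst hS
  have hM := mid_of_in hS hz
  have ht : t ∉ pre S := fun h => hnb ⟨hs, h⟩
  have hTc : G.IsClique ((insert t (pre S) : Finset (Fin n)) : Set (Fin n)) := by
    rw [Finset.coe_insert, SimpleGraph.isClique_insert]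
    refine ⟨hc, fun b hb htb => ?_⟩
    rcases hM b hb with h | h | h
    · rw [h]
      exact hst.symm
    · exact absurd h.symm htb
    · exact h.2
  have hcard : (insert t (pre S)).card = S.card := by
    rw [Finset.card_insert_of_notMem ht, card_in hz]
  have hlk : lk (sd G s t) S = Fin.castSucc '' lk G (insert t (pre S)) := by
    ext v
    induction v using Fin.lastCases with
    | last =>
      rw [lk_l]
      exact ⟨fun h => absurd hz h.1, fun h => absurd h (last_img _)⟩
    | cast a =>
      rw [lk_c, mem_img]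
      constructor
      · rintro ⟨h1, h2⟩ u hu
        rcases Finset.mem_insert.1 hu with rfl | hu
        · rcases h2 hz with h | h | h
          · exact absurd (h1 s hs).1 (by rw [h]; exact G.loopless.irrefl _)
          · exact absurd (by rw [h, Sym2.eq_swap]) (h1 s hs).2
          · exact h.2.symm
        · exact (h1 u hu).1
      · intro h
        have h1 : G.Adj a t := h t (Finset.mem_insert_self _ _)
        have h2 : G.Adj a s := h s (Finset.mem_insert_of_mem hs)
        refine ⟨fun u hu => ⟨h u (Finset.mem_insert_of_mem hu), fun h3 => ?_⟩, fun _ =>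
          Or.inr (Or.inr ⟨h2.symm, h1.symm⟩)⟩
        rw [Sym2.eq_iff] at h3
        rcases h3 with ⟨h3, -⟩ | ⟨h3, -⟩
        · exact h2.ne h3
        · exact h1.ne h3
  rw [hlk, bb_tr (H := G) Fin.castSucc mono_cs]
  · intro u hu u' hu'
    rw [sd_cc]
    have h1 : G.Adj u t := hu t (Finset.mem_insert_self _ _)
    have h2 : G.Adj u s := hu s (Finset.mem_insert_of_mem hs)
    refine ⟨fun h => ⟨h, fun h3 => ?_⟩, fun h => h.1⟩
    rw [Sym2.eq_iff] at h3
    rcases h3 with ⟨h3, -⟩ | ⟨h3, -⟩
    · exact h2.ne h3
    · exact h1.ne h3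

include hS in
/-- a clique which is not contained in the closed star of the edge -/
theorem caseB2 (hz : Fin.last n ∉ S) (hM : ¬ ∀ u ∈ pre S, Mid G s t u) (i : ℕ) :
    bb (sd G s t) (lk (sd G s t) S) i = bb G (lk G (pre S)) i := by
  classical
  have hc := pre_clique hS
  have hlk : lk (sd G s t) S = Fin.castSucc '' lk G (pre S) := by
    ext v
    induction v using Fin.lastCases with
    | last =>
      rw [lk_l]
      exact ⟨fun h => absurd h.2 hM, fun h => absurd h (last_img _)⟩
    | cast a =>
      rw [lk_c, mem_img]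
      constructor
      · rintro ⟨h1, -⟩ u hu
        exact (h1 u hu).1
      · intro h
        refine ⟨fun u hu => ⟨h u hu, fun h3 => ?_⟩, fun h => absurd h hz⟩
        rw [Sym2.eq_iff] at h3
        apply hM
        rcases h3 with ⟨h3, h4⟩ | ⟨h3, h4⟩
        · intro u' hu'
          by_cases h5 : u' = t
          · exact Or.inr (Or.inl h5)
          · refine Or.inr (Or.inr ⟨?_, ?_⟩)
            · rw [← h3]
              exact h u' hu'
            · rw [← h4]
              exact hc hu hu' (by rw [h4]; exact fun e => h5 e.symm)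
        · intro u' hu'
          by_cases h5 : u' = s
          · exact Or.inl h5
          · refine Or.inr (Or.inr ⟨?_, ?_⟩)
            · rw [← h4]
              exact hc hu hu' (by rw [h4]; exact fun e => h5 e.symm)
            · rw [← h3]
              exact h u' hu'
  rw [hlk, bb_tr (H := G) Fin.castSucc mono_cs]
  · intro u hu u' hu'
    rw [sd_cc]
    refine ⟨fun h => ⟨h, fun h3 => ?_⟩, fun h => h.1⟩
    rw [Sym2.eq_iff] at h3
    apply hM
    intro v hv
    refine Or.inr (Or.inr ?_)
    rcases h3 with ⟨h3, h4⟩ | ⟨h3, h4⟩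
    · rw [← h3, ← h4]
      exact ⟨hu v hv, hu' v hv⟩
    · rw [← h3, ← h4]
      exact ⟨hu' v hv, hu v hv⟩

include hst hS in
/-- a clique in the closed star of the edge containing one end -/
theorem caseB1a (hz : Fin.last n ∉ S) (hM : ∀ u ∈ pre S, Mid G s t u) (hs : s ∈ pre S) (i : ℕ) :
    bb (sd G s t) (lk (sd G s t) S) i = bb G (lk G (pre S)) i := by
  classical
  have hc := pre_clique hS
  have hnb := not_both hst hS
  have ht : t ∉ pre S := fun h => hnb ⟨hs, h⟩
  have htl : t ∈ lk G (pre S) := by
    intro u hu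
    rcases hM u hu with h | h | h
    · rw [h]
      exact hst.symm
    · exact absurd (h ▸ hu) ht
    · exact h.2
  have hlk : lk (sd G s t) S = insert (Fin.last n) (Fin.castSucc '' (lk G (pre S) \ {t})) := by
    ext v
    induction v using Fin.lastCases with
    | last =>
      rw [lk_l]
      exact ⟨fun _ => Or.inl rfl, fun _ => ⟨hz, hM⟩⟩
    | cast a =>
      rw [lk_c]
      constructor
      · rintro ⟨h1, -⟩
        right
        rw [mem_img]
        refine ⟨fun u hu => (h1 u hu).1, fun h => ?_⟩
        have h' : a = t := h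
        exact (h1 s hs).2 (by rw [h', Sym2.eq_swap])
      · rintro (h | h)
        · exact absurd h (Fin.castSucc_lt_last a).ne
        · rw [mem_img] at h
          obtain ⟨h1, h2⟩ := h
          refine ⟨fun u hu => ⟨h1 u hu, fun h3 => ?_⟩, fun h => absurd h hz⟩
          rw [Sym2.eq_iff] at h3
          rcases h3 with ⟨h3, -⟩ | ⟨h3, -⟩
          · exact (h1 s hs).ne h3
          · exact h2 h3
  have hsl : s ∉ lk G (pre S) := fun h => G.loopless.irrefl _ (h s hs)
  have e1 : bb (sd G s t) (insert (Fin.last n) (Fin.castSucc '' (lk G (pre S) \ {t}))) i =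
      bb (g2 G s t) (insert (Fin.last n) (Fin.castSucc '' (lk G (pre S) \ {t}))) i := by
    refine bb_congr (fun u hu v hv => ?_) i
    rw [← g2_del, SimpleGraph.deleteEdges_adj, Set.mem_singleton_iff]
    refine ⟨fun h => h.1, fun h => ⟨h, fun h3 => ?_⟩⟩
    have key : t.castSucc ∉ insert (Fin.last n) (Fin.castSucc '' (lk G (pre S) \ {t})) := by
      rintro (h | h)
      · exact (Fin.castSucc_lt_last t).ne h
      · rw [mem_img] at h
        exact h.2 rfl
    rw [Sym2.eq_iff] at h3
    rcases h3 with ⟨-, h3⟩ | ⟨h3, -⟩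
    · exact key (h3 ▸ hv)
    · exact key (h3 ▸ hu)
  have e2 : bb (g2 G s t) (insert t.castSucc
      (insert (Fin.last n) (Fin.castSucc '' (lk G (pre S) \ {t})))) i =
      bb (g2 G s t) (insert (Fin.last n) (Fin.castSucc '' (lk G (pre S) \ {t}))) i := by
    refine bb_dom (u := Fin.last n) ?_ (Or.inl rfl) ((g2_cl t).2 (Or.inr (Or.inl rfl))) ?_ i
    · rintro (h | h)
      · exact (Fin.castSucc_lt_last t).ne h
      · rw [mem_img] at h
        exact h.2 rfl
    · rintro w (hw | ⟨a, ha, rfl⟩) h1 h2
      · exact absurd hw h2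
      · rw [g2_cc hst] at h1
        rw [g2_lc]
        exact Or.inr (Or.inr ⟨(ha.1 s hs).symm, h1⟩)
  have e3 : insert t.castSucc (insert (Fin.last n) (Fin.castSucc '' (lk G (pre S) \ {t}))) =
      insert (Fin.last n) (Fin.castSucc '' lk G (pre S)) := by
    rw [Set.insert_comm, ← Set.image_insert_eq, Set.insert_sdiff_singleton,
      Set.insert_eq_of_mem htl]
  have e4 : bb (g2 G s t) (insert (Fin.last n) (Fin.castSucc '' lk G (pre S))) i =
      bb (g2 G s t) (Fin.castSucc '' lk G (pre S)) i := by
    refine bb_dom (u := t.castSucc) (last_img _) (mem_img.2 htl)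
      ((g2_lc t).2 (Or.inr (Or.inl rfl))) ?_ i
    rintro w ⟨a, ha, rfl⟩ h1 h2
    rw [g2_lc] at h1
    rw [g2_cc hst]
    rcases h1 with h | h | h
    · exact absurd (h ▸ ha) hsl
    · exact absurd (by rw [h]) h2
    · exact h.2
  rw [hlk, e1, ← e2, e3, e4, bb_tr (H := G) Fin.castSucc mono_cs]
  · intro u _ u' _
    exact (g2_cc hst u u').symm

include hst hS in
/-- a clique in the link of the edge -/
theorem caseB1c (hz : Fin.last n ∉ S) (hM : ∀ u ∈ pre S, Mid G s t u) (hs : s ∉ pre S)
    (ht : t ∉ pre S) (i : ℕ) :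
    bb (sd G s t) (lk (sd G s t) S) i = bb G (lk G (pre S)) i := by
  classical
  have hc := pre_clique hS
  have hM' : ∀ u ∈ pre S, G.Adj s u ∧ G.Adj t u := by
    intro u hu
    rcases hM u hu with h | h | h
    · exact absurd (h ▸ hu) hs
    · exact absurd (h ▸ hu) ht
    · exact h
  have hsl : s ∈ lk G (pre S) := fun u hu => (hM' u hu).1
  have htl : t ∈ lk G (pre S) := fun u hu => (hM' u hu).2
  have hlk : lk (sd G s t) S = insert (Fin.last n) (Fin.castSucc '' lk G (pre S)) := by
    ext v
    induction v using Fin.lastCases with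
    | last =>
      rw [lk_l]
      exact ⟨fun _ => Or.inl rfl, fun _ => ⟨hz, hM⟩⟩
    | cast a =>
      rw [lk_c]
      constructor
      · rintro ⟨h1, -⟩
        right
        rw [mem_img]
        exact fun u hu => (h1 u hu).1
      · rintro (h | h)
        · exact absurd h (Fin.castSucc_lt_last a).ne
        · rw [mem_img] at h
          refine ⟨fun u hu => ⟨h u hu, fun h3 => ?_⟩, fun h => absurd h hz⟩
          rw [Sym2.eq_iff] at h3
          rcases h3 with ⟨-, h3⟩ | ⟨-, h3⟩
          · exact ht (h3 ▸ hu)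
          · exact hs (h3 ▸ hu)
  have e1 : bb (sd G s t) (insert (Fin.last n) (Fin.castSucc '' lk G (pre S))) i =
      bb (g2 G s t) (insert (Fin.last n) (Fin.castSucc '' lk G (pre S))) i := by
    rw [← g2_del]
    refine bb_del (G := g2 G s t) (A := insert (Fin.last n) (Fin.castSucc '' lk G (pre S)))
      (s := s.castSucc) (t := t.castSucc) (Or.inr (mem_img.2 hsl)) (Or.inr (mem_img.2 htl))
      ((g2_cc hst s t).2 hst) (bb_cone (u := Fin.last n) ⟨Or.inl rfl, (g2_cl s).2 (Or.inl rfl),
        (g2_cl t).2 (Or.inr (Or.inl rfl))⟩ ?_) i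
    rintro w ⟨hw | ⟨a, ha, rfl⟩, h1, h2⟩ h3
    · exact absurd hw h3
    · have h1' : (g2 G s t).Adj s.castSucc a.castSucc := h1
      have h2' : (g2 G s t).Adj t.castSucc a.castSucc := h2
      rw [g2_cc hst] at h1' h2'
      rw [g2_lc]
      exact Or.inr (Or.inr ⟨h1', h2'⟩)
  have e2 : bb (g2 G s t) (insert (Fin.last n) (Fin.castSucc '' lk G (pre S))) i =
      bb (g2 G s t) (Fin.castSucc '' lk G (pre S)) i := by
    refine bb_dom (u := s.castSucc) (last_img _) (mem_img.2 hsl)
      ((g2_lc s).2 (Or.inl rfl)) ?_ i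
    rintro w ⟨a, ha, rfl⟩ h1 h2
    rw [g2_lc] at h1
    rw [g2_cc hst]
    rcases h1 with h | h | h
    · exact absurd (by rw [h]) h2
    · rw [h]
      exact hst
    · exact h.1
  rw [hlk, e1, e2, bb_tr (H := G) Fin.castSucc mono_cs]
  · intro u _ u' _
    exact (g2_cc hst u u').symm

end cases

section main

variable {n k : ℕ} {G : SimpleGraph (Fin n)} {s t : Fin n}

theorem pre_map (S : Finset (Fin n)) : pre (S.map Fin.castSuccEmb) = S := by
  ext a
  rw [mem_pre, Finset.mem_map]
  constructor
  · rintro ⟨b, hb, h⟩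
    rw [← Fin.castSucc_injective n h]
    exact hb
  · intro h
    exact ⟨a, h, rfl⟩

theorem last_notMem_map (S : Finset (Fin n)) : Fin.last n ∉ S.map Fin.castSuccEmb := by
  rw [Finset.mem_map]
  rintro ⟨b, -, h⟩
  exact (Fin.castSucc_lt_last b).ne h

theorem pre_insert_map (S : Finset (Fin n)) : pre (insert (Fin.last n) (S.map Fin.castSuccEmb)) = S := by
  ext a
  rw [mem_pre, Finset.mem_insert, Finset.mem_map]
  constructor
  · rintro (h | ⟨b, hb, h⟩)
    · exact absurd h (Fin.castSucc_lt_last a).ne
    · rw [← Fin.castSucc_injective n h]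
      exact hb
  · intro h
    exact Or.inr ⟨a, h, rfl⟩

/-- the cliques of `G` which do not contain the edge are cliques of the subdivision -/
theorem map_clique {S : Finset (Fin n)} (hS : G.IsClique (S : Set (Fin n))) (h : ¬ (s ∈ S ∧ t ∈ S)) :
    (sd G s t).IsClique ((S.map Fin.castSuccEmb : Finset (Fin (n + 1))) : Set (Fin (n + 1))) := by
  intro x hx y hy hxy
  rw [Finset.mem_coe, Finset.mem_map] at hx hy
  obtain ⟨a, ha, rfl⟩ := hx
  obtain ⟨b, hb, rfl⟩ := hy
  have hab : a ≠ b := fun e => hxy (by rw [e])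
  refine (sd_cc a b).2 ⟨hS ha hb hab, fun h3 => h ?_⟩
  rw [Sym2.eq_iff] at h3
  rcases h3 with ⟨h3, h4⟩ | ⟨h3, h4⟩
  · rw [← h3, ← h4]
    exact ⟨ha, hb⟩
  · rw [← h3, ← h4]
    exact ⟨hb, ha⟩

theorem main_lk (hst : G.Adj s t) (hG : HSph k (sd G s t)) {S : Finset (Fin n)}
    (hS : G.IsClique (S : Set (Fin n))) (i : ℕ) :
    bb G (lk G S) i = if i + S.card = k then 1 else 0 := by
  classical
  by_cases hb : s ∈ S ∧ t ∈ S
  · obtain ⟨hs, ht⟩ := hb
    -- the clique with the midpoint instead of `t`
    obtain ⟨S', hS'⟩ : ∃ S', S' = insert (Fin.last n) ((S.erase t).map Fin.castSuccEmb) := ⟨_, rfl⟩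
    have hpre : pre S' = S.erase t := by rw [hS', pre_insert_map]
    have hsub : G.IsClique ((S.erase t : Finset (Fin n)) : Set (Fin n)) :=
      hS.subset (by exact_mod_cast Finset.erase_subset t S)
    have hcl : (sd G s t).IsClique (S' : Set (Fin (n + 1))) := by
      rw [hS', Finset.coe_insert, SimpleGraph.isClique_insert]
      refine ⟨map_clique hsub fun h => (Finset.mem_erase.1 h.2).1 rfl, fun y hy _ => ?_⟩
      rw [Finset.mem_coe, Finset.mem_map] at hy
      obtain ⟨a, ha, rfl⟩ := hy
      refine (sd_lc a).2 ?_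
      obtain ⟨h1, h2⟩ := Finset.mem_erase.1 ha
      by_cases h3 : a = s
      · exact Or.inl h3
      · exact Or.inr (Or.inr ⟨hS hs h2 (Ne.symm h3), hS ht h2 (Ne.symm h1)⟩)
    have hz : Fin.last n ∈ S' := by rw [hS']; exact Finset.mem_insert_self _ _
    have hs' : s ∈ pre S' := by rw [hpre]; exact Finset.mem_erase.2 ⟨hst.ne, hs⟩
    have h1 := caseA1 hst hcl hz hs' i
    have h2 := hG S' hcl i
    have h3 : insert t (pre S') = S := by rw [hpre, Finset.insert_erase ht]
    have h4 : S'.card = S.card := by
      rw [card_in hz, hpre, Finset.card_erase_add_one ht]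
    rw [h3] at h1
    rw [← h1, ← h4]
    exact h2
  · obtain ⟨S', hS'⟩ : ∃ S', S' = S.map Fin.castSuccEmb := ⟨_, rfl⟩
    have hcl : (sd G s t).IsClique (S' : Set (Fin (n + 1))) := by
      rw [hS']
      exact map_clique hS hb
    have hpre : pre S' = S := by rw [hS', pre_map]
    have hz : Fin.last n ∉ S' := by rw [hS']; exact last_notMem_map S
    have h2 := hG S' hcl i
    have h4 : S'.card = S.card := by rw [hS', Finset.card_map]
    have key : bb (sd G s t) (lk (sd G s t) S') i = bb G (lk G (pre S')) i := by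
      by_cases hM : ∀ u ∈ pre S', Mid G s t u
      · by_cases hs : s ∈ pre S'
        · exact caseB1a hst hcl hz hM hs i
        · by_cases ht : t ∈ pre S'
          · have hcl' : (sd G t s).IsClique (S' : Set (Fin (n + 1))) := by
              rw [sd_comm]
              exact hcl
            have h5 := caseB1a hst.symm hcl' hz (fun u hu => (mid_comm u).1 (hM u hu)) ht i
            rw [sd_comm] at h5
            exact h5
          · exact caseB1c hst hcl hz hM hs ht i
      · exact caseB2 hcl hz hM i
    rw [hpre] at key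
    rw [← key, ← h4]
    exact h2

end main

end Pool.Agent.V8H96.LT.C1

namespace Pool.Agent.V8H96.LT

open Pool.Agent.N496.LT
open Pool.Agent.TH652.Above (HSph)

/-- If the subdivision of an edge of a flag complex is a homology sphere, so is the complex. -/
theorem e1_inv (k n : ℕ) (G : SimpleGraph (Fin n)) (s t : Fin n) (hst : G.Adj s t)
    (hG : HSph k (sd G s t)) : HSph k G := fun _ hS i => C1.main_lk hst hG hS i

/-- An edge subdivision is a homology sphere if and only if the complex is. -/
theorem e1_iff (k n : ℕ) (G : SimpleGraph (Fin n)) (s t : Fin n) (hst : G.Adj s t) :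
    HSph k (sd G s t) ↔ HSph k G := ⟨e1_inv k n G s t hst, e1 k n G s t hst⟩

end Pool.Agent.V8H96.LT
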