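import Pool.Agent.R781.VS.VDel
import Pool.Agent.W215.SG.Susp

/-!
# Midpoints of subdivided edges: the linear algebra

The Betti numbers of a suspension with coefficients in a space of functions are bounded by the number of long orbits.
-/

set_option autoImplicit false

noncomputable section

namespace Pool.Agent.V8H96.LT

open Module Pool.Agent.W907.SG

section lin

variable {V F M : Type} [Fintype V] [LinearOrder V] [Field F] [AddCommGroup M] [Module F M]
  [FiniteDimensional F M]

omit [Fintype V] [LinearOrder V] [FiniteDimensional F M] in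
theorem mem_kerp (ρ : V → M →ₗ[F] M) (v : V) (m : M) :
    m ∈ LinearMap.ker (ρ v + LinearMap.id) ↔ ρ v m = -m := by
  rw [LinearMap.mem_ker, LinearMap.add_apply, LinearMap.id_apply]
  exact ⟨fun h => eq_neg_of_add_eq_zero_left h, fun h => by rw [h, neg_add_cancel]⟩

/-- The Betti numbers of a suspension are bounded by the dimension of the kernel of `1 - ρ t ρ s`. -/
theorem susp_bound (G : SimpleGraph V) (ρ : V → M →ₗ[F] M) (s t : V) (hst : s ≠ t)
    (hnadj : ¬ G.Adj s t) (hadj : ∀ u, u ≠ s → u ≠ t → G.Adj u s ∧ G.Adj u t)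
    (h2 : (2 : F) ≠ 0) (hinv : ∀ v m, ρ v (ρ v m) = m)
    (hcomm : ∀ u v, G.Adj u v → ∀ m, ρ u (ρ v m) = ρ v (ρ u m)) (i : ℕ) :
    beta G ρ Set.univ ∅ i ≤ 2 * (2 ^ Fintype.card V *
      finrank F (LinearMap.ker (LinearMap.id - ρ t ∘ₗ ρ s))) := by
  have hsu : ∀ u, u ≠ s → u ≠ t → ∀ m, ρ u (ρ s m) = ρ s (ρ u m) ∧ ρ u (ρ t m) = ρ t (ρ u m) :=
    fun u h1 h3 m => ⟨hcomm u s (hadj u h1 h3).1 m, hcomm u t (hadj u h1 h3).2 m⟩
  let N0 : Submodule F M :=
    LinearMap.ker (ρ s + LinearMap.id) ⊔ LinearMap.ker (ρ t + LinearMap.id)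
  have hker : ∀ v m, m ∈ LinearMap.ker (ρ v + LinearMap.id) ↔ ρ v m = -m := mem_kerp ρ
  have hN0 : ∀ m, m ∈ N0 ↔ ∃ x y, m = x + y ∧ ρ s x = -x ∧ ρ t y = -y := by
    intro m
    rw [Submodule.mem_sup]
    constructor
    · rintro ⟨x, hx, y, hy, rfl⟩
      exact ⟨x, y, rfl, (hker s x).mp hx, (hker t y).mp hy⟩
    · rintro ⟨x, y, rfl, hx, hy⟩
      exact ⟨x, (hker s x).mpr hx, y, (hker t y).mpr hy, rfl⟩
  have hN0inv : ∀ v, ∀ m ∈ N0, ρ v m ∈ N0 := by
    intro v m hm
    obtain ⟨x, y, rfl, hx, hy⟩ := (hN0 m).mp hm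
    by_cases h1 : v = s
    · rw [h1]
      rw [hN0]
      refine ⟨-x - (y - ρ s y), y, ?_, ?_, hy⟩
      · rw [map_add, hx]
        abel
      · rw [map_sub, map_neg, map_sub, hinv, hx]
        abel
    · by_cases h3 : v = t
      · rw [h3, hN0]
        refine ⟨x, -y - (x - ρ t x), ?_, hx, ?_⟩
        · rw [map_add, hy]
          abel
        · rw [map_sub, map_neg, map_sub, hinv, hy]
          abel
      · rw [hN0]
        refine ⟨ρ v x, ρ v y, map_add _ _ _, ?_, ?_⟩
        · rw [← (hsu v h1 h3 x).1, hx, map_neg]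
        · rw [← (hsu v h1 h3 y).2, hy, map_neg]
  -- first sequence
  have B1 := Pool.Agent.W215.SG.sub_quot Pool.Agent.W907.SG.sub G ρ h2 hinv hcomm N0 hN0inv i
  -- second sequence
  set σ : V → N0 →ₗ[F] N0 := fun v => (ρ v).restrict (hN0inv v) with hσ
  have hσv : ∀ v (m : N0), ((σ v m : N0) : M) = ρ v m := fun _ _ => rfl
  have hσinv : ∀ v m, σ v (σ v m) = m := fun v m => Subtype.ext (by rw [hσv, hσv, hinv])
  have hσcomm : ∀ u v, G.Adj u v → ∀ m, σ u (σ v m) = σ v (σ u m) := fun u v huv m =>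
    Subtype.ext (by rw [hσv, hσv, hσv, hσv, hcomm u v huv])
  let E : Submodule F N0 :=
    LinearMap.ker (σ s + LinearMap.id) ⊓ LinearMap.ker (σ t + LinearMap.id)
  have hkerσ : ∀ v m, m ∈ LinearMap.ker (σ v + LinearMap.id) ↔ σ v m = -m := mem_kerp σ
  have hE : ∀ m, m ∈ E ↔ σ s m = -m ∧ σ t m = -m := by
    intro m
    rw [Submodule.mem_inf, hkerσ, hkerσ]
  have hEinv : ∀ v, ∀ m ∈ E, σ v m ∈ E := by
    intro v m hm
    obtain ⟨h3, h4⟩ := (hE m).mp hm
    by_cases h1 : v = s
    · rw [h1, h3]
      exact E.neg_mem hm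
    · by_cases h5 : v = t
      · rw [h5, h4]
        exact E.neg_mem hm
      · rw [hE]
        have c1 := hσcomm v s (hadj v h1 h5).1 m
        have c2 := hσcomm v t (hadj v h1 h5).2 m
        exact ⟨by rw [← c1, h3, map_neg], by rw [← c2, h4, map_neg]⟩
  have B2 := Pool.Agent.W215.SG.sub_quot Pool.Agent.W907.SG.sub G σ h2 hσinv hσcomm E hEinv i
  -- the quotient is acyclic
  have B3 : beta G (fun v => E.mapQ E (σ v) (hEinv v)) Set.univ ∅ i = 0 := by
    apply Pool.Agent.W907.SG.acyc V F (N0 ⧸ E) G (fun v => E.mapQ E (σ v) (hEinv v)) s t hst hnadj hadj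
    · intro u v huv m
      obtain ⟨m, rfl⟩ := Submodule.mkQ_surjective E m
      simp only [Submodule.mkQ_apply, Submodule.mapQ_apply]
      rw [hσcomm u v huv]
    · intro m
      obtain ⟨m, rfl⟩ := Submodule.mkQ_surjective E m
      obtain ⟨x, y, hxy, hx, hy⟩ := (hN0 m).mp m.2
      have hx0 : x ∈ N0 := (hN0 x).mpr ⟨x, 0, by simp, hx, by simp⟩
      have hy0 : y ∈ N0 := (hN0 y).mpr ⟨0, y, by simp, by simp, hy⟩
      refine ⟨E.mkQ ⟨x, hx0⟩, E.mkQ ⟨y, hy0⟩, ?_, ?_, ?_⟩
      · rw [← map_add]
        congr 1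
        exact Subtype.ext hxy
      · simp only [Submodule.mkQ_apply, Submodule.mapQ_apply]
        rw [← Submodule.Quotient.mk_neg]
        congr 1
        exact Subtype.ext hx
      · simp only [Submodule.mkQ_apply, Submodule.mapQ_apply]
        rw [← Submodule.Quotient.mk_neg]
        congr 1
        exact Subtype.ext hy
    · intro m
      obtain ⟨m, rfl⟩ := Submodule.mkQ_surjective E m
      simp only [Submodule.mkQ_apply, Submodule.mapQ_apply]
      intro h3 h4
      have key : ∀ v, (v = s ∨ v = t) →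
          (Submodule.Quotient.mk (σ v m) : N0 ⧸ E) = -Submodule.Quotient.mk m → σ v m = -m := by
        intro v hv h5
        have h6 : σ v m + m ∈ E := by
          rw [← Submodule.Quotient.mk_eq_zero, Submodule.Quotient.mk_add, h5, neg_add_cancel]
        have h7 : σ v (σ v m + m) = -(σ v m + m) := by
          rcases hv with rfl | rfl
          · exact ((hE _).mp h6).1
          · exact ((hE _).mp h6).2
        have h8 : σ v (σ v m + m) = σ v m + m := by
          rw [map_add, hσinv]
          abel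
        have h9 : (2 : F) • (σ v m + m) = 0 := by
          rw [two_smul]
          nth_rewrite 1 [← h8]
          rw [h7, neg_add_cancel]
        have h10 := (smul_eq_zero.mp h9).resolve_left h2
        exact eq_neg_of_add_eq_zero_left h10
      rw [Submodule.Quotient.mk_eq_zero, hE]
      exact ⟨key s (Or.inl rfl) h3, key t (Or.inr rfl) h4⟩
  -- dimensions
  have D1 : finrank F E ≤ finrank F (LinearMap.ker (LinearMap.id - ρ t ∘ₗ ρ s)) := by
    have h3 : ∀ m : E, ((m : N0) : M) ∈ LinearMap.ker (LinearMap.id - ρ t ∘ₗ ρ s) := by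
      intro m
      obtain ⟨h4, h5⟩ := (hE (m : N0)).mp m.2
      have h4' : ρ s ((m : N0) : M) = -((m : N0) : M) := congrArg Subtype.val h4
      have h5' : ρ t ((m : N0) : M) = -((m : N0) : M) := congrArg Subtype.val h5
      rw [LinearMap.mem_ker, LinearMap.sub_apply, LinearMap.id_apply, LinearMap.comp_apply, h4',
        map_neg, h5', neg_neg, sub_self]
    let R : E →ₗ[F] LinearMap.ker (LinearMap.id - ρ t ∘ₗ ρ s) :=
      LinearMap.codRestrict _ (N0.subtype ∘ₗ E.subtype) h3
    refine LinearMap.finrank_le_finrank_of_injective (f := R) ?_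
    rw [injective_iff_map_eq_zero]
    intro m hm
    have h4 : ((m : N0) : M) = 0 := congrArg Subtype.val hm
    exact Subtype.ext (Subtype.ext h4)
  have D2 : finrank F (M ⧸ N0) ≤ finrank F (LinearMap.ker (LinearMap.id - ρ t ∘ₗ ρ s)) := by
    have h3 : LinearMap.range (LinearMap.id - ρ t ∘ₗ ρ s) ≤ N0 := by
      rintro _ ⟨m, rfl⟩
      rw [LinearMap.sub_apply, LinearMap.id_apply, LinearMap.comp_apply]
      rw [hN0]
      refine ⟨m - ρ s m, ρ s m - ρ t (ρ s m), by abel, ?_, ?_⟩
      · rw [map_sub, hinv]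
        abel
      · rw [map_sub, hinv]
        abel
    have h4 := Submodule.finrank_mono h3
    have h5 := LinearMap.finrank_range_add_finrank_ker (LinearMap.id - ρ t ∘ₗ ρ s)
    have h6 := Submodule.finrank_quotient_add_finrank N0
    omega
  have B4 := Pool.Agent.W907.SG.dim V F E G (fun v => (σ v).restrict (hEinv v)) Set.univ ∅ i
  have B5 := Pool.Agent.W907.SG.dim V F (M ⧸ N0) G (fun v => N0.mapQ N0 (ρ v) (hN0inv v))
    Set.univ ∅ i
  have h3 := Nat.mul_le_mul_left (2 ^ Fintype.card V) D1
  have h4 := Nat.mul_le_mul_left (2 ^ Fintype.card V) D2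
  omega

end lin

section orb

/-- The space of the functions invariant under a permutation with long cycles is small. -/
theorem inv_bound {F Y : Type} [Field F] [Fintype Y] (π : Equiv.Perm Y) (L : ℕ)
    (hπ : ∀ k, 1 ≤ k → k < L → ∀ y, (π ^ k) y ≠ y) (K : Submodule F (Y → F))
    (hK : ∀ f ∈ K, ∀ y, f (π y) = f y) : finrank F K * L ≤ Fintype.card Y := by
  classical
  let S : Setoid Y := Equiv.Perm.SameCycle.setoid π
  have hfin : Finite (Quotient S) := Quotient.finite S
  let _ : Fintype (Quotient S) := Fintype.ofFinite _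
  have hpow : ∀ f ∈ K, ∀ (k : ℕ) y, f ((π ^ k) y) = f y := by
    intro f hf k
    induction k with
    | zero => intro y; simp
    | succ k ih =>
      intro y
      rw [pow_succ', Equiv.Perm.mul_apply, hK f hf, ih]
  have hsame : ∀ f ∈ K, ∀ x y, π.SameCycle x y → f x = f y := by
    intro f hf x y hxy
    obtain ⟨k, -, hk⟩ := hxy.exists_pow_eq' 
    rw [← hk, hpow f hf]
  have h1 : finrank F K ≤ Fintype.card (Quotient S) := by
    let R : K →ₗ[F] (Quotient S → F) :=
      { toFun := fun f q => (f : Y → F) q.out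
        map_add' := fun _ _ => rfl
        map_smul' := fun _ _ => rfl }
    have hR : Function.Injective R := by
      rw [injective_iff_map_eq_zero]
      intro f hf
      apply Subtype.ext
      funext y
      have h3 : (f : Y → F) (Quotient.mk S y).out = 0 := congrFun hf (Quotient.mk S y)
      have h4 : π.SameCycle (Quotient.mk S y).out y := Quotient.mk_out (s := S) y
      rw [← hsame f f.2 _ _ h4, h3]
      rfl
    have h3 := LinearMap.finrank_le_finrank_of_injective hR
    rwa [Module.finrank_fintype_fun_eq_card] at h3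
  have h2 : Fintype.card (Quotient S) * L ≤ Fintype.card Y := by
    let g : Quotient S × Fin L → Y := fun z => (π ^ (z.2 : ℕ)) z.1.out
    have hg : Function.Injective g := by
      rintro ⟨q, k⟩ ⟨q', k'⟩ h
      have h' : (π ^ (k : ℕ)) q.out = (π ^ (k' : ℕ)) q'.out := h
      have h3 : q = q' := by
        rw [← Quotient.out_eq q, ← Quotient.out_eq q']
        apply Quotient.sound
        show π.SameCycle q.out q'.out
        have h4 : π.SameCycle ((π ^ (k : ℕ)) q.out) ((π ^ (k' : ℕ)) q'.out) := by rw [h']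
        rwa [Equiv.Perm.sameCycle_pow_left, Equiv.Perm.sameCycle_pow_right] at h4
      subst h3
      have key : ∀ a b : ℕ, a < b → b < L → (π ^ a) q.out = (π ^ b) q.out → False := by
        intro a b hab hb h5
        obtain ⟨c, rfl⟩ := Nat.exists_eq_add_of_lt hab
        have h6 : (π ^ (c + 1)) ((π ^ a) q.out) = (π ^ a) q.out := by
          rw [← Equiv.Perm.mul_apply, ← pow_add]
          rw [h5]
          congr 2
          omega
        exact hπ (c + 1) (by omega) (by omega) _ h6
      rcases lt_trichotomy (k : ℕ) (k' : ℕ) with h5 | h5 | h5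
      · exact (key _ _ h5 k'.2 h').elim
      · rw [Fin.ext h5]
      · exact (key _ _ h5 k.2 h'.symm).elim
    have h3 := Fintype.card_le_of_injective g hg
    rwa [Fintype.card_prod, Fintype.card_fin] at h3
  exact (Nat.mul_le_mul_right L h1).trans h2

end orb

section word

open Pool.Agent.W461.SGN

variable {V : Type} (G : SimpleGraph V)

open Classical in
/-- the action of the group on the integers where `s` and `t` act as the reflections at `0` and `1 / 2` -/
def dih (s t : V) (hst : ¬ G.Adj s t) : W G →* Equiv.Perm (ZMod 0) :=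
  (cox G).toCoxeterSystem.lift ⟨fun v => ⟨Pool.Agent.W215.SG.tau 0 s t v, Pool.Agent.W215.SG.tau 0 s t v,
    Pool.Agent.W215.SG.tau_tau 0 s t v, Pool.Agent.W215.SG.tau_tau 0 s t v⟩,
    liftable G _ (fun u => Equiv.ext fun x => Pool.Agent.W215.SG.tau_tau 0 s t u x)
      (fun u v huv => Equiv.ext fun x => Pool.Agent.W215.SG.tau_comm 0 s t G hst u v huv x)⟩

theorem st_pow_ne (s t : V) (hne : s ≠ t) (hst : ¬ G.Adj s t) (k : ℕ) (hk : 1 ≤ k) :
    ((cox G).simple t * (cox G).simple s) ^ k ≠ 1 := by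
  classical
  intro h
  have hs : ∀ x, dih G s t hst ((cox G).simple s) x = -x := by
    intro x
    have h1 : dih G s t hst ((cox G).simple s) = _ := CoxeterSystem.lift_apply_simple _ _ s
    rw [h1]
    show Pool.Agent.W215.SG.tau 0 s t s x = -x
    unfold Pool.Agent.W215.SG.tau
    rw [if_pos rfl]
  have ht : ∀ x, dih G s t hst ((cox G).simple t) x = 1 - x := by
    intro x
    have h1 : dih G s t hst ((cox G).simple t) = _ := CoxeterSystem.lift_apply_simple _ _ t
    rw [h1]
    show Pool.Agent.W215.SG.tau 0 s t t x = 1 - x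
    unfold Pool.Agent.W215.SG.tau
    rw [if_neg hne.symm, if_pos rfl]
  have h1 : ∀ (j : ℕ) x, dih G s t hst (((cox G).simple t * (cox G).simple s) ^ j) x = x + j := by
    intro j
    induction j with
    | zero => intro x; simp
    | succ j ih =>
      intro x
      rw [pow_succ', map_mul, Equiv.Perm.mul_apply, ih, map_mul, Equiv.Perm.mul_apply, hs, ht]
      push_cast
      ring
  have h2 := h1 k 0
  rw [h, map_one, Equiv.Perm.one_apply, zero_add] at h2
  have h3 : (k : ℤ) = 0 := h2.symm
  omega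

end word

end Pool.Agent.V8H96.LT
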